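import Pool.Agent.Helper45.RT.Stmts3

/-!
Row BASE of project RTwo (MP_47dd75_co): the check of one base pattern.
-/

set_option autoImplicit false

namespace RTwo

open Finset

namespace BASE

theorem nA_congr {n k : ℕ} {c c' : Col} (h : ∀ i j, i < k → j < k → c i j = c' i j) (hn : n ≤ k)
    {v : ℕ} (hv : v < k) : nA n c v = nA n c' v := by
  unfold nA
  congr 1
  apply Finset.filter_congr
  intro w hw
  rw [h v w hv (lt_of_lt_of_le (Finset.mem_range.1 hw) hn)]

theorem nB_congr {n k : ℕ} {c c' : Col} (h : ∀ i j, i < k → j < k → c i j = c' i j) (hn : n ≤ k)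
    {v : ℕ} (hv : v < k) : nB n c v = nB n c' v := by
  unfold nB
  congr 1
  apply Finset.filter_congr
  intro w hw
  rw [h v w hv (lt_of_lt_of_le (Finset.mem_range.1 hw) hn)]

theorem dgr_congr {k : ℕ} {c c' : Col} (h : ∀ i j, i < k → j < k → c i j = c' i j)
    {v : ℕ} (hv : v < k) : dgr k c v = dgr k c' v := by
  unfold dgr
  rw [nA_congr h le_rfl hv, nB_congr h le_rfl hv]

theorem totA_congr {k : ℕ} {c c' : Col} (h : ∀ i j, i < k → j < k → c i j = c' i j) :
    totA k c = totA k c' :=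
  Finset.sum_congr rfl fun _ hv => nA_congr h le_rfl (Finset.mem_range.1 hv)

theorem totB_congr {k : ℕ} {c c' : Col} (h : ∀ i j, i < k → j < k → c i j = c' i j) :
    totB k c = totB k c' :=
  Finset.sum_congr rfl fun _ hv => nB_congr h le_rfl (Finset.mem_range.1 hv)

theorem code_congr {k : ℕ} {c c' : Col} (h : ∀ i j, i < k → j < k → c i j = c' i j) :
    code k c = code k c' :=
  Finset.sum_congr rfl fun i hi => Finset.sum_congr rfl fun j hj => by
    rw [h i j (Finset.mem_range.1 hi) (Finset.mem_range.1 hj)]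

theorem loop_lem (h1 : ST_GO1) {k bq ra rb mz : ℕ} {T L : List ℕ} : ∀ (n g X D s : ℕ), g < n →
    loopG k bq ra rb mz T L n X D s = true →
    ∃ (s' : ℕ) (K : ℕ → Bool), go k bq ((rotD k)^[g] D) T L (k + 1) ((rotr k 1)^[g] X)
      (2 ^ k - 1) ra rb k mz 0 s' K = true := by
  intro n
  induction n with
  | zero => intro g X D s hg; exact absurd hg (Nat.not_lt_zero _)
  | succ n ih =>
    intro g X D s hg h
    have h2 : go k bq D T L (k + 1) X (2 ^ k - 1) ra rb k mz 0 s
        (fun s' => loopG k bq ra rb mz T L n (rotr k 1 X) (rotD k D) s') = true := h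
    cases g with
    | zero => exact ⟨s, _, h2⟩
    | succ g =>
      obtain ⟨s', h3⟩ := h1 _ _ _ _ _ _ _ _ _ _ _ _ _ _ _ h2
      obtain ⟨s'', K, h4⟩ := ih g _ _ s' (Nat.lt_of_succ_lt_succ hg) h3
      exact ⟨s'', K, by rw [Function.iterate_succ_apply, Function.iterate_succ_apply]; exact h4⟩

theorem mod_aux (i g k : ℕ) : ((i + 1) % k + g) % k = (i + (g + 1)) % k := by
  rw [Nat.mod_add_mod]
  congr 1
  omega

theorem rot_iter (hrot : ST_ROT) {k : ℕ} (hk : 2 ≤ k) (hk' : k ≤ 9) {d : Col}
    (hd : ∀ i j, i < k → j < k → d i j ≤ 3) (g : ℕ) :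
    (rotr k 1)^[g] (code k d) = code k (fun i j => d ((i + g) % k) ((j + g) % k)) := by
  induction g with
  | zero =>
    rw [Function.iterate_zero, id]
    refine code_congr fun i j hi hj => ?_
    rw [Nat.add_zero, Nat.add_zero, Nat.mod_eq_of_lt hi, Nat.mod_eq_of_lt hj]
  | succ g ih =>
    rw [Function.iterate_succ_apply', ih, hrot k 1 _ (by omega) (by omega) ?_]
    · refine code_congr fun i j _ _ => ?_
      rw [mod_aux, mod_aux]
    · intro i j _ _
      exact hd _ _ (Nat.mod_lt _ (by omega)) (Nat.mod_lt _ (by omega))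

theorem rotD_iter (hrd : ST_ROTD) {k D : ℕ} (hk : 0 < k) (hk' : k ≤ 10) (hD : D < 16 ^ k) (g : ℕ) :
    (rotD k)^[g] D < 16 ^ k ∧
      ∀ v, v < k → (rotD k)^[g] D / 16 ^ v % 16 = D / 16 ^ ((v + g) % k) % 16 := by
  induction g with
  | zero =>
    refine ⟨hD, fun v hv => ?_⟩
    rw [Function.iterate_zero, id, Nat.add_zero, Nat.mod_eq_of_lt hv]
  | succ g ih =>
    have h := hrd k _ hk hk' ih.1
    rw [Function.iterate_succ_apply']
    refine ⟨h.1, fun v hv => ?_⟩
    rw [h.2 v hv, ih.2 _ (Nat.mod_lt _ hk), mod_aux]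

/-- the new vertex has at most `k` neighbours -/
theorem dgr_le {k : ℕ} {c : Col} (hc : SymC (k + 1) c) : dgr (k + 1) c k ≤ k := by
  unfold dgr nA nB
  rw [← Finset.card_union_of_disjoint]
  · have h : (filter (fun w => c k w = 1) (range (k + 1))) ∪
        (filter (fun w => c k w = 2) (range (k + 1))) ⊆ range k := by
      intro w hw
      rw [Finset.mem_union, Finset.mem_filter, Finset.mem_filter, Finset.mem_range] at hw
      rw [Finset.mem_range]
      have h1 : w ≠ k := by
        rintro rfl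
        have := (hc w w (Nat.lt_succ_self w) (Nat.lt_succ_self w)).2.1
        omega
      omega
    have := Finset.card_le_card h
    rwa [Finset.card_range] at this
  · rw [Finset.disjoint_left]
    intro w h1 h2
    rw [Finset.mem_filter] at h1 h2
    omega

theorem inv_code (hb : ST_BITS) {k : ℕ} (hk' : k ≤ 9) {c : Col}
    (hc : ∀ i j, i < k → j < k → c i j ≤ 3) : Inv k c (code k c) (2 ^ k - 1) := by
  obtain ⟨h1, h2, h3, -, -⟩ := hb k c (by omega) hc
  refine ⟨h1, ?_, ?_, ?_⟩
  · intro j e hj he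
    rw [h3 _ (by omega), Nat.testBit_two_pow_sub_one, decide_eq_true hj]
    simp
  · intro i j e hi hj hkj he
    rcases Nat.lt_or_ge i k with h | h
    · exact h2 i j e h hj (by omega) he
    · exact h3 _ (by omega)
  · intro t ht
    exact h3 t (by omega)

end BASE

open BASE in
/-- row BASE -/
theorem st_BASE (hgo1 : ST_GO1) (hgo2 : ST_GO2) (hrot : ST_ROT) (hdeg : ST_DEG)
    (hrd : ST_ROTD) (hbits : ST_BITS) (hdel : ST_DEL) (hcol : ST_DCOL) : ST_BASE := by
  intro I k t T L X s hk hk' hT hchk c d g hc hR hd hX hg hcd ht hA hB hmin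
  have hk0 : 0 < k := by omega
  have hd3 : ∀ i j, i < k → j < k → d i j ≤ 3 := fun i j hi hj => by
    have := (hd i j hi hj).2.2
    omega
  obtain ⟨e1, e2, e3, e4⟩ := hcol k g 0 d hk0 hd
  have hds : ∀ i, dsg k g 0 i = (i + g) % k := fun i => if_pos rfl
  have hcc : ∀ i j, i < k → j < k → c i j = dcol k g 0 d i j := by
    intro i j hi hj
    rw [hcd i j hi hj]
    unfold dcol
    rw [hds, hds]
  have hc3 : ∀ i j, i < k → j < k → c i j ≤ 3 := fun i j hi hj => by
    have := (hc i j (by omega) (by omega)).2.2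
    omega
  have tA : totA k c = totA k d := by rw [totA_congr hcc, e2]
  have tB : totB k c = totB k d := by rw [totB_congr hcc, e3]
  have dg : ∀ v, v < k → dgr k c v = dgr k d ((v + g) % k) := by
    intro v hv
    rw [dgr_congr hcc hv, e4 v hv, hds]
  obtain ⟨-, f2, -, -, f5, -⟩ := hdel k c hc
  obtain ⟨-, s2, s3, s4, s5, ⟨v0, hv0, s6⟩, -⟩ := hdeg k d hk0 (by omega) hd
  rw [← hX] at s2 s3 s4 s5 s6
  -- the bounds for the degree of the new vertex
  have hb1 : dgr (k + 1) c k ≤ minD X k + 1 := by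
    set v1 := (v0 + (k - g)) % k with hv1
    have hv1k : v1 < k := Nat.mod_lt _ hk0
    have h1 := hmin v1 hv1k
    have h2 := f5 v1 hv1k
    have h3 := dg v1 hv1k
    have h4 : (v1 + g) % k = v0 := by
      rw [hv1, Nat.mod_add_mod, show v0 + (k - g) + g = v0 + k by omega, Nat.add_mod_right,
        Nat.mod_eq_of_lt hv0]
    rw [h4, ← s6] at h3
    omega
  have hb2 : dgr (k + 1) c k ≤ k := dgr_le hc
  have htot : tot k c = sumA X k + sumB X k := by
    unfold tot
    rw [tA, tB, s2, s3]
  have hbq : t - (sumA X k + sumB X k) / 2 ≤ dgr (k + 1) c k := by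
    rw [f2, htot] at ht
    omega
  have hq1 : Nat.ble (t - (sumA X k + sumB X k) / 2) (Nat.succ (minD X k)) = true :=
    Nat.ble_eq.mpr (by omega)
  have hq2 : Nat.ble (t - (sumA X k + sumB X k) / 2) k = true := Nat.ble_eq.mpr (by omega)
  have hchk' : sel (Nat.ble (t - (sumA X k + sumB X k) / 2) (Nat.succ (minD X k)))
      (sel (Nat.ble (t - (sumA X k + sumB X k) / 2) k)
        (loopG k (t - (sumA X k + sumB X k) / 2) (11 - sumA X k / 2) (11 - sumB X k / 2)
          (Nat.succ (minD X k)) T L k X (degs X k) s) true) true = true := hchk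
  rw [hq1, hq2] at hchk'
  have hloop : loopG k (t - (sumA X k + sumB X k) / 2) (11 - sumA X k / 2) (11 - sumB X k / 2)
          (Nat.succ (minD X k)) T L k X (degs X k) s = true := hchk'
  obtain ⟨s', K, hgo⟩ := loop_lem hgo1 k g X (degs X k) s hg hloop
  have hXg : (rotr k 1)^[g] X = code k c := by
    rw [hX, rot_iter hrot hk hk' hd3 g]
    exact code_congr fun i j hi hj => (hcd i j hi hj).symm
  rw [hXg] at hgo
  have hund : undN k (2 ^ k - 1) = k := by
    unfold undN
    rw [Finset.filter_true_of_mem, Finset.card_range]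
    intro j hj
    rw [Nat.testBit_two_pow_sub_one, decide_eq_true (Finset.mem_range.1 hj)]
  have hdec : ∀ x, decN k c (2 ^ k - 1) x = 0 := by
    intro x
    unfold decN
    rw [Finset.card_eq_zero, Finset.filter_eq_empty_iff]
    intro j hj h
    rw [Nat.testBit_two_pow_sub_one, decide_eq_true (Finset.mem_range.1 hj)] at h
    exact Bool.noConfusion h.1
  refine hgo2 I k t (t - (sumA X k + sumB X k) / 2) ((rotD k)^[g] (degs X k)) T L c hk hk' hc hR hT
    ?_ ht hA hB hmin (by rw [htot]) (k + 1) (code k c) (2 ^ k - 1) (11 - sumA X k / 2)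
    (11 - sumB X k / 2) k (Nat.succ (minD X k)) 0 s' K (inv_code hbits hk' hc3) ?_ hund.symm
    ?_ ?_ ?_ ?_ ?_ ?_ (Nat.zero_le _) hgo
  · intro v hv
    rw [(rotD_iter hrd hk0 (by omega) s5 g).2 v hv, s4 _ (Nat.mod_lt _ hk0), dg v hv]
  · have : 0 < 2 ^ k := Nat.two_pow_pos k
    omega
  · rw [hdec, tA, s2]; omega
  · rw [hdec, tB, s3]; omega
  · rw [hdec, hdec]
  · omega
  · omega
  · omega

end RTwo
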