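import Pool.Agent.Helper45.RT.Stmts3

/-!
Row ORD of project RTwo (MP_47dd75_co): the vertices of a convex polygon in their order.
-/

set_option autoImplicit false

namespace RTwo

open Pool.Agent.Helper14.Poly

namespace ORD

/-- twice the signed area -/
def crp (u v w : Plane) : ℝ := (v 0 - u 0) * (w 1 - u 1) - (v 1 - u 1) * (w 0 - u 0)

theorem plane_ext {u v : Plane} (h0 : u 0 = v 0) (h1 : u 1 = v 1) : u = v := by
  ext i
  fin_cases i
  · exact h0
  · exact h1

theorem hull2 {S : Set Plane} {x y z : Plane} (hx : x ∈ S) (hy : y ∈ S) {a b : ℝ} (ha : 0 ≤ a)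
    (hb : 0 ≤ b) (hab : a + b = 1) (h0 : z 0 = a * x 0 + b * y 0)
    (h1 : z 1 = a * x 1 + b * y 1) : z ∈ convexHull ℝ S := by
  have h := (convex_convexHull ℝ S) (subset_convexHull ℝ S hx) (subset_convexHull ℝ S hy) ha hb hab
  have hz : z = a • x + b • y := by
    apply plane_ext
    · simp only [PiLp.add_apply, PiLp.smul_apply, smul_eq_mul]; exact h0
    · simp only [PiLp.add_apply, PiLp.smul_apply, smul_eq_mul]; exact h1
  rw [hz]
  exact h

theorem hull3 {S : Set Plane} {x y w z : Plane} (hx : x ∈ S) (hy : y ∈ S) (hw : w ∈ S)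
    {a b c : ℝ} (ha : 0 ≤ a) (hb : 0 ≤ b) (hc : 0 < c) (habc : a + b + c = 1)
    (h0 : z 0 = a * x 0 + b * y 0 + c * w 0)
    (h1 : z 1 = a * x 1 + b * y 1 + c * w 1) : z ∈ convexHull ℝ S := by
  have hs : 0 < b + c := by linarith
  have h := (convex_convexHull ℝ S) (subset_convexHull ℝ S hy) (subset_convexHull ℝ S hw)
    (a := b / (b + c)) (b := c / (b + c)) (by positivity) (by positivity) (by field_simp)
  have h2 := (convex_convexHull ℝ S) (subset_convexHull ℝ S hx) h ha hs.le (by linarith)
  have hz : z = a • x + (b + c) • ((b / (b + c)) • y + (c / (b + c)) • w) := by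
    apply plane_ext
    · simp only [PiLp.add_apply, PiLp.smul_apply, smul_eq_mul]; rw [h0]; field_simp; ring
    · simp only [PiLp.add_apply, PiLp.smul_apply, smul_eq_mul]; rw [h1]; field_simp; ring
  rw [hz]
  exact h2

theorem proj_lem {e0 e1 d0 d1 : ℝ} (h : e0 * d1 - e1 * d0 = 0) (hd : 0 < d0 * d0 + d1 * d1) :
    ∃ t : ℝ, e0 = t * d0 ∧ e1 = t * d1 := by
  have hne := hd.ne'
  refine ⟨(e0 * d0 + e1 * d1) / (d0 * d0 + d1 * d1), ?_, ?_⟩
  · rw [div_mul_eq_mul_div, eq_div_iff hne]
    linear_combination d1 * h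
  · rw [div_mul_eq_mul_div, eq_div_iff hne]
    linear_combination (-d0) * h

theorem pos_sq {d0 d1 : ℝ} (h : d0 ≠ 0 ∨ d1 ≠ 0) : 0 < d0 * d0 + d1 * d1 := by
  rcases h with h | h
  · have := mul_self_pos.2 h
    have := mul_self_nonneg d1
    linarith
  · have := mul_self_pos.2 h
    have := mul_self_nonneg d0
    linarith

variable {n : ℕ} {C : Finset Plane}

/-- No three vertices are collinear. -/
theorem cr_ne (hC : IsConvexPolygon n C) {u v w : Plane} (hu : u ∈ C) (hv : v ∈ C) (hw : w ∈ C)
    (huv : u ≠ v) (huw : u ≠ w) (hvw : v ≠ w) : crp u v w ≠ 0 := by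
  intro h
  unfold crp at h
  have hd : 0 < (w 0 - u 0) * (w 0 - u 0) + (w 1 - u 1) * (w 1 - u 1) := by
    apply pos_sq
    by_contra hcon
    push Not at hcon
    exact huw (plane_ext (by linarith [hcon.1]) (by linarith [hcon.2]))
  obtain ⟨t, ht0, ht1⟩ := proj_lem h hd
  have ht0 : v 0 = u 0 + t * (w 0 - u 0) := by linarith
  have ht1 : v 1 = u 1 + t * (w 1 - u 1) := by linarith
  have mem : ∀ {a b : Plane}, a ∈ C → a ≠ b → a ∈ (C : Set Plane) \ {b} := fun h1 h2 => ⟨h1, h2⟩
  rcases lt_trichotomy t 0 with ht | ht | ht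
  · refine hC.2 u hu (hull2 (mem hv huv.symm) (mem hw huw.symm) (a := 1 / (1 - t))
      (b := -t / (1 - t)) ?_ ?_ ?_ ?_ ?_)
    · have : 0 < 1 - t := by linarith
      positivity
    · have : 0 < 1 - t := by linarith
      have h2 : 0 < -t := by linarith
      positivity
    · have : 1 - t ≠ 0 := by linarith
      field_simp
      ring
    · have : 1 - t ≠ 0 := by linarith
      rw [ht0]
      field_simp
      ring
    · have : 1 - t ≠ 0 := by linarith
      rw [ht1]
      field_simp
      ring
  · rw [ht] at ht0 ht1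
    exact huv (plane_ext (by linarith) (by linarith))
  · rcases le_or_gt t 1 with ht' | ht'
    · refine hC.2 v hv (hull2 (mem hu huv) (mem hw hvw.symm) (a := 1 - t) (b := t) (by linarith)
        ht.le (by ring) ?_ ?_)
      · rw [ht0]; ring
      · rw [ht1]; ring
    · refine hC.2 w hw (hull2 (mem hv hvw) (mem hu huw) (a := 1 / t) (b := (t - 1) / t) ?_ ?_
        ?_ ?_ ?_)
      · positivity
      · have : 0 < t - 1 := by linarith
        positivity
      · field_simp
        ring
      · rw [ht0]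
        field_simp
        ring
      · rw [ht1]
        field_simp
        ring

/-- Four vertices. -/
theorem cr_four (hC : IsConvexPolygon n C) {o u v w : Plane} (ho : o ∈ C) (hu : u ∈ C)
    (hv : v ∈ C) (hw : w ∈ C) (hov : o ≠ v) (huv : u ≠ v) (hvw : v ≠ w) (huw : u ≠ w)
    (h1 : 0 < crp o u v) (h2 : 0 < crp o v w) (h3 : 0 < crp o u w) : 0 < crp u v w := by
  rcases lt_trichotomy (crp u v w) 0 with h | h | h
  · exfalso
    have hT := h3.ne'
    refine hC.2 v hv (hull3 (x := o) (y := u) (w := w) ⟨ho, hov⟩ ⟨hu, huv⟩ ⟨hw, hvw.symm⟩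
      (a := -crp u v w / crp o u w) (b := crp o v w / crp o u w) (c := crp o u v / crp o u w)
      ?_ ?_ ?_ ?_ ?_ ?_)
    · have : 0 < -crp u v w := by linarith
      positivity
    · positivity
    · positivity
    · rw [← add_div, ← add_div, div_eq_one_iff_eq hT]
      unfold crp
      ring
    · field_simp
      unfold crp
      ring
    · field_simp
      unfold crp
      ring
  · exact absurd h (cr_ne hC hu hv hw huv huw hvw)
  · exact h

open Classical in
/-- the slope -/
noncomputable def key (o u : Plane) : WithTop ℝ :=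
  if u 0 = o 0 then ⊤ else (((u 1 - o 1) / (u 0 - o 0) : ℝ) : WithTop ℝ)

/-- `u` is later than `o` in the lexicographic order -/
def Later (o u : Plane) : Prop := o 0 < u 0 ∨ (o 0 = u 0 ∧ o 1 < u 1)

theorem key_lt {o u v : Plane} (hu : Later o u) (hv : Later o v) (h : key o u < key o v) :
    0 < crp o u v := by
  unfold key at h
  have hu0 : u 0 ≠ o 0 := by
    intro h0
    rw [if_pos h0] at h
    exact not_top_lt h
  rw [if_neg hu0] at h
  have hu1 : o 0 < u 0 := by
    rcases hu with h1 | h1
    · exact h1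
    · exact absurd h1.1.symm hu0
  unfold crp
  have hu2 : 0 < u 0 - o 0 := by linarith
  by_cases hv0 : v 0 = o 0
  · have hv1 : o 1 < v 1 := by
      rcases hv with h1 | h1
      · exact absurd hv0 h1.ne'
      · exact h1.2
    have hv2 : 0 < v 1 - o 1 := by linarith
    rw [hv0, sub_self, mul_zero, sub_zero]
    positivity
  · rw [if_neg hv0, WithTop.coe_lt_coe] at h
    have hv1 : o 0 < v 0 := by
      rcases hv with h1 | h1
      · exact h1
      · exact absurd h1.1.symm hv0
    have hv2 : 0 < v 0 - o 0 := by linarith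
    rw [div_lt_div_iff₀ hu2 hv2] at h
    linarith

theorem key_eq {o u v : Plane} (h : key o u = key o v) : crp o u v = 0 := by
  unfold key at h
  unfold crp
  by_cases hu : u 0 = o 0
  · rw [if_pos hu] at h
    have hv : v 0 = o 0 := by
      by_contra hv
      rw [if_neg hv] at h
      exact WithTop.top_ne_coe h
    rw [hu, hv]
    ring
  · rw [if_neg hu] at h
    by_cases hv : v 0 = o 0
    · rw [if_pos hv] at h
      exact absurd h WithTop.coe_ne_top
    · rw [if_neg hv, WithTop.coe_inj] at h
      have hu2 : u 0 - o 0 ≠ 0 := sub_ne_zero.2 hu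
      have hv2 : v 0 - o 0 ≠ 0 := sub_ne_zero.2 hv
      field_simp at h
      linarith

end ORD

open ORD in
/-- row ORD -/
theorem st_ORD : ST_ORD := by
  classical
  intro n C hC
  rcases Nat.eq_zero_or_pos n with hn | hn
  · subst hn
    exact ⟨fun _ => 0, fun i hi => absurd hi (Nat.not_lt_zero _),
      fun i _ hi => absurd hi (Nat.not_lt_zero _), fun i j k _ _ hk => absurd hk (Nat.not_lt_zero _)⟩
  have hne : C.Nonempty := by
    rw [← Finset.card_pos, hC.1]
    exact hn
  obtain ⟨o, ho, hmin⟩ := C.exists_min_image (fun u => toLex (u 0, u 1)) hne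
  have hlater : ∀ u ∈ C, u ≠ o → Later o u := by
    intro u hu huo
    have h1 := hmin u hu
    rw [Prod.Lex.toLex_le_toLex] at h1
    rcases h1 with h1 | ⟨h1, h2⟩
    · exact Or.inl h1
    · right
      refine ⟨h1, lt_of_le_of_ne h2 fun h3 => huo (plane_ext h1.symm h3.symm)⟩
  have hinj : ∀ u ∈ C.erase o, ∀ v ∈ C.erase o, key o u = key o v → u = v := by
    intro u hu v hv h
    by_contra huv
    rw [Finset.mem_erase] at hu hv
    exact cr_ne hC ho hu.2 hv.2 hu.1.symm hv.1.symm huv (key_eq h)
  have hcard : ((C.erase o).image (key o)).card = n - 1 := by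
    rw [Finset.card_image_of_injOn (fun u hu v hv h => hinj u hu v hv h),
      Finset.card_erase_of_mem ho, hC.1]
  set ε := ((C.erase o).image (key o)).orderEmbOfFin hcard with hε
  have hg : ∀ i : Fin (n - 1), ∃ u ∈ C.erase o, key o u = ε i := by
    intro i
    have := ((C.erase o).image (key o)).orderEmbOfFin_mem hcard i
    rw [Finset.mem_image] at this
    exact this
  choose g hg1 hg2 using hg
  have hglt : ∀ i j : Fin (n - 1), i < j → 0 < crp o (g i) (g j) := by
    intro i j hij
    have h1 := Finset.mem_erase.1 (hg1 i)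
    have h2 := Finset.mem_erase.1 (hg1 j)
    refine key_lt (hlater _ h1.2 h1.1) (hlater _ h2.2 h2.1) ?_
    rw [hg2, hg2]
    exact ε.strictMono hij
  have hgne : ∀ i j : Fin (n - 1), i ≠ j → g i ≠ g j := by
    intro i j hij h
    have h1 : ε i = ε j := by rw [← hg2, ← hg2, h]
    exact hij (ε.injective h1)
  set e : ℕ → Plane := fun i => if h : 0 < i ∧ i - 1 < n - 1 then g ⟨i - 1, h.2⟩ else o with he
  have e0 : e 0 = o := by
    rw [he]
    simp
  have e1 : ∀ i (h : 0 < i) (h' : i < n), e i = g ⟨i - 1, by omega⟩ := by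
    intro i h h'
    rw [he]
    simp only
    rw [dif_pos ⟨h, by omega⟩]
  have hcr : ∀ a b c : ℕ, cr (⟨e a 0, e a 1⟩ : ℂ) ⟨e b 0, e b 1⟩ ⟨e c 0, e c 1⟩ =
      crp (e a) (e b) (e c) := fun a b c => rfl
  refine ⟨e, ?_, ?_, ?_⟩
  · intro i hi
    rcases Nat.eq_zero_or_pos i with h | h
    · rw [h, e0]; exact ho
    · rw [e1 i h hi]
      exact (Finset.mem_erase.1 (hg1 _)).2
  · intro i j hi hj hij
    rcases Nat.eq_zero_or_pos i with h | h
    · rcases Nat.eq_zero_or_pos j with h' | h'
      · omega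
      · rw [h, e0, e1 j h' hj] at hij
        exact absurd hij.symm (Finset.mem_erase.1 (hg1 _)).1
    · rcases Nat.eq_zero_or_pos j with h' | h'
      · rw [h', e0, e1 i h hi] at hij
        exact absurd hij (Finset.mem_erase.1 (hg1 _)).1
      · rw [e1 i h hi, e1 j h' hj] at hij
        by_contra hne'
        refine hgne _ _ ?_ hij
        intro h2
        have := congrArg Fin.val h2
        simp only at this
        omega
  · intro i j k hij hjk hk
    rw [hcr]
    rcases Nat.eq_zero_or_pos i with h | h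
    · rw [h, e0, e1 j (by omega) (by omega), e1 k (by omega) hk]
      apply hglt
      rw [Fin.lt_def]
      simp only
      omega
    · rw [e1 i h (by omega), e1 j (by omega) (by omega), e1 k (by omega) hk]
      have a1 := Finset.mem_erase.1 (hg1 ⟨i - 1, by omega⟩)
      have a2 := Finset.mem_erase.1 (hg1 ⟨j - 1, by omega⟩)
      have a3 := Finset.mem_erase.1 (hg1 ⟨k - 1, by omega⟩)
      have l12 : (⟨i - 1, by omega⟩ : Fin (n - 1)) < ⟨j - 1, by omega⟩ := by
        rw [Fin.lt_def]; simp only; omega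
      have l23 : (⟨j - 1, by omega⟩ : Fin (n - 1)) < ⟨k - 1, by omega⟩ := by
        rw [Fin.lt_def]; simp only; omega
      exact cr_four hC ho a1.2 a2.2 a3.2 a2.1.symm (hgne _ _ l12.ne) (hgne _ _ l23.ne)
        (hgne _ _ (l12.trans l23).ne) (hglt _ _ l12) (hglt _ _ l23) (hglt _ _ (l12.trans l23))

end RTwo
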